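import Mathlib

namespace Pool.Agent.Results.MP_f4b4d0_co.Counter

def TM (n r : ℕ) : Finset ℕ :=
  (Finset.range (2 ^ n)).filter (fun k => (Nat.digits 2 k).count 1 % 2 = r)

def D (n : ℕ) (S T : Finset ℕ) : ℤ := ∑ s ∈ S, (s : ℤ) ^ n - ∑ t ∈ T, (t : ℤ) ^ n

theorem result : ∃ (n : ℕ) (S T : Finset ℕ), 1 ≤ n ∧ S ∪ T = Finset.range (2 ^ n) ∧
    Disjoint S T ∧ (∀ i < n, ∑ s ∈ S, s ^ i = ∑ t ∈ T, t ^ i) ∧
    S ≠ TM n 0 ∧ S ≠ TM n 1 ∧ |D n S T| < |D n (TM n 0) (TM n 1)| := by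
  refine ⟨7, (Finset.range 128).filter (fun k => Nat.testBit 151918789291931015991896857071147134385 k = true),
    (Finset.range 128).filter (fun k => ¬ Nat.testBit 151918789291931015991896857071147134385 k = true),
    by norm_num, Finset.filter_union_filter_not_eq _ _, Finset.disjoint_filter_filter_not _ _ _,
    by decide +kernel, by decide +kernel, by decide +kernel, by decide +kernel⟩

end Pool.Agent.Results.MP_f4b4d0_co.Counter
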